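import Pool.Agent.K3h76.SB.StmA

/-!
# Brick MOM: the conditional form of Gaussian moments
-/

set_option autoImplicit false

namespace Pool.Agent.K3h62.SB

open Finset Pool.Agent.K3h76.SB

lemma gm1_succ (c : ℚ) (n : ℕ) : gm1 c (n + 1) = n * c * gm1 c (n - 1) := by
  rcases n with _ | m
  · simp [gm1]
  · have h2 : Even (m + 1 + 1) ↔ Even m := by
      rw [Nat.even_add_one, Nat.even_add_one, not_not]
    unfold gm1
    rw [Nat.add_sub_cancel, Nat.add_sub_cancel]
    by_cases h : Even m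
    · rw [if_pos h, if_pos (h2.2 h)]
      have h3 : ((m + 1).doubleFactorial : ℚ) = (m + 1 : ℕ) * ((m - 1).doubleFactorial : ℚ) := by
        rcases m with _ | k
        · simp
        · rw [Nat.add_sub_cancel, Nat.doubleFactorial_add_two]
          push_cast
          ring
      have h4 : (m + 1 + 1) / 2 = m / 2 + 1 := by omega
      rw [h3, h4, pow_succ]
      ring
    · rw [if_neg h, if_neg (fun h' => h (h2.1 h')), mul_zero]

lemma gm1_zero (c : ℚ) : gm1 c 0 = 1 := by simp [gm1]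

lemma gm1_one (c : ℚ) : gm1 c 1 = 0 := by simp [gm1]

/-- one term -/
def T (c11 c12 c22 : ℚ) (i j l : ℕ) : ℚ :=
  ((i.choose l * j.choose l * l.factorial : ℕ) : ℚ) * c12 ^ l * gm1 c11 (i - l) * gm1 c22 (j - l)

lemma moment_eq (c11 c12 c22 : ℚ) (i j N : ℕ) (hN : min i j + 1 ≤ N) :
    moment c11 c12 c22 i j = ∑ l ∈ range N, T c11 c12 c22 i j l := by
  unfold moment T
  apply sum_subset (range_mono hN)
  intro l _ hl
  rw [mem_range, not_lt] at hl
  have h : i < l ∨ j < l := by
    rcases Nat.lt_or_ge i l with h | h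
    · exact Or.inl h
    · rcases Nat.lt_or_ge j l with h' | h'
      · exact Or.inr h'
      · have := le_min h h'
        omega
  rcases h with h | h <;> simp [Nat.choose_eq_zero_of_lt h]

/-- the first part of the recursion -/
lemma first (c : ℚ) (i l : ℕ) :
    (i.choose l : ℚ) * gm1 c (i + 1 - l) = i * c * (((i - 1).choose l : ℚ) * gm1 c (i - 1 - l)) := by
  rcases Nat.lt_trichotomy l i with h | h | h
  · obtain ⟨n, rfl⟩ : ∃ n, i = l + n + 1 := ⟨i - l - 1, by omega⟩
    have e1 : l + n + 1 + 1 - l = (n + 1) + 1 := by omega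
    have e2 : l + n + 1 - 1 - l = n := by omega
    have e3 : l + n + 1 - 1 = l + n := by omega
    rw [e1, gm1_succ, e2, Nat.add_sub_cancel, e3]
    have h1 : (l + n).choose l * (l + n + 1) = (l + n + 1).choose l * (l + n + 1 - l) :=
      Nat.choose_mul_succ_eq (l + n) l
    have e4 : l + n + 1 - l = n + 1 := by omega
    rw [e4] at h1
    have h2 : (((l + n).choose l : ℕ) : ℚ) * ((l + n + 1 : ℕ) : ℚ) =
        (((l + n + 1).choose l : ℕ) : ℚ) * ((n + 1 : ℕ) : ℚ) := by exact_mod_cast h1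
    linear_combination (-(c * gm1 c n)) * h2
  · subst h
    have e1 : l + 1 - l = 1 := by omega
    rw [e1, gm1_one, mul_zero]
    rcases l with _ | k
    · simp
    · rw [Nat.choose_eq_zero_of_lt (by omega : k + 1 - 1 < k + 1)]
      simp
  · rw [Nat.choose_eq_zero_of_lt h, Nat.choose_eq_zero_of_lt (by omega : i - 1 < l)]
    simp

lemma second (i j l : ℕ) :
    ((i.choose l * j.choose (l + 1) * (l + 1).factorial : ℕ) : ℚ) =
      j * ((i.choose l * (j - 1).choose l * l.factorial : ℕ) : ℚ) := by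
  rcases j with _ | m
  · simp
  · rw [Nat.add_sub_cancel]
    have h1 := Nat.add_one_mul_choose_eq m l
    have h2 : ((m + 1 : ℕ) : ℚ) * ((m.choose l : ℕ) : ℚ) =
        (((m + 1).choose (l + 1) : ℕ) : ℚ) * ((l + 1 : ℕ) : ℚ) := by exact_mod_cast h1
    rw [Nat.factorial_succ]
    push_cast at h2 ⊢
    linear_combination (-((i.choose l : ℚ) * (l.factorial : ℚ))) * h2

lemma moment_rec (c11 c12 c22 : ℚ) (i j : ℕ) :
    moment c11 c12 c22 (i + 1) j = i * c11 * moment c11 c12 c22 (i - 1) j +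
      j * c12 * moment c11 c12 c22 i (j - 1) := by
  have hN1 : min (i + 1) j + 1 ≤ i + j + 2 := by
    have := min_le_left (i + 1) j
    omega
  have hN2 : min (i - 1) j + 1 ≤ i + j + 2 := by
    have := min_le_left (i - 1) j
    omega
  have hN3 : min i (j - 1) + 1 ≤ i + j + 1 := by
    have := min_le_left i (j - 1)
    omega
  rw [moment_eq _ _ _ _ _ (i + j + 2) hN1, moment_eq _ _ _ _ _ (i + j + 2) hN2,
    moment_eq _ _ _ _ _ (i + j + 1) hN3]
  have hU : ∀ l, (i.choose l : ℚ) * (j.choose l : ℚ) * (l.factorial : ℚ) * c12 ^ l *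
      gm1 c11 (i + 1 - l) * gm1 c22 (j - l) = i * c11 * T c11 c12 c22 (i - 1) j l := by
    intro l
    have h := first c11 i l
    unfold T
    push_cast
    linear_combination ((j.choose l : ℚ) * (l.factorial : ℚ) * c12 ^ l * gm1 c22 (j - l)) * h
  have h1 : ∑ l ∈ range (i + j + 2), T c11 c12 c22 (i + 1) j l =
      ∑ l ∈ range (i + j + 2), (i.choose l : ℚ) * (j.choose l : ℚ) * (l.factorial : ℚ) * c12 ^ l *
      gm1 c11 (i + 1 - l) * gm1 c22 (j - l) +
        ∑ l ∈ range (i + j + 1), j * c12 * T c11 c12 c22 i (j - 1) l := by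
    rw [show i + j + 2 = (i + j + 1) + 1 from rfl, sum_range_succ' (T c11 c12 c22 (i + 1) j),
      sum_range_succ' (fun l => (i.choose l : ℚ) * (j.choose l : ℚ) * (l.factorial : ℚ) * c12 ^ l *
      gm1 c11 (i + 1 - l) * gm1 c22 (j - l))]
    have h2 : T c11 c12 c22 (i + 1) j 0 = (i.choose 0 : ℚ) * (j.choose 0 : ℚ) *
        (Nat.factorial 0 : ℚ) * c12 ^ 0 * gm1 c11 (i + 1 - 0) * gm1 c22 (j - 0) := by
      unfold T
      simp
    have h6 : ∀ l, T c11 c12 c22 (i + 1) j (l + 1) =
        (i.choose (l + 1) : ℚ) * (j.choose (l + 1) : ℚ) *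
          ((l + 1).factorial : ℚ) * c12 ^ (l + 1) * gm1 c11 (i + 1 - (l + 1)) *
            gm1 c22 (j - (l + 1)) + j * c12 * T c11 c12 c22 i (j - 1) l := by
      intro l
      have h3 := second i j l
      unfold T
      rw [Nat.choose_succ_succ, Nat.add_sub_add_right]
      have e : j - (l + 1) = j - 1 - l := by omega
      rw [e]
      push_cast at h3 ⊢
      linear_combination (c12 ^ (l + 1) * gm1 c11 (i - l) * gm1 c22 (j - 1 - l)) * h3
    have h5 : ∑ k ∈ range (i + j + 1), T c11 c12 c22 (i + 1) j (k + 1) =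
        ∑ k ∈ range (i + j + 1), (i.choose (k + 1) : ℚ) * (j.choose (k + 1) : ℚ) *
          ((k + 1).factorial : ℚ) * c12 ^ (k + 1) * gm1 c11 (i + 1 - (k + 1)) *
            gm1 c22 (j - (k + 1)) +
          ∑ l ∈ range (i + j + 1), j * c12 * T c11 c12 c22 i (j - 1) l := by
      rw [← sum_add_distrib]
      refine sum_congr rfl fun l _ => ?_
      exact h6 l
    rw [h5, h2]
    ring
  rw [h1, sum_congr rfl fun l _ => hU l, ← mul_sum, ← mul_sum]

/-- the right side -/
def R (c11 c12 c' : ℚ) (i j : ℕ) : ℚ :=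
  ∑ s ∈ range (j + 1), (j.choose s : ℚ) * (c12 / c11) ^ (j - s) * gm1 c' s * gm1 c11 (i + j - s)

lemma R_rec (c11 c12 c' : ℚ) (h0 : c11 ≠ 0) (i j : ℕ) :
    R c11 c12 c' (i + 1) j = i * c11 * R c11 c12 c' (i - 1) j + j * c12 * R c11 c12 c' i (j - 1) := by
  unfold R
  have h1 : ∀ s ∈ range (j + 1), (j.choose s : ℚ) * (c12 / c11) ^ (j - s) * gm1 c' s *
      gm1 c11 (i + 1 + j - s) = i * c11 * ((j.choose s : ℚ) * (c12 / c11) ^ (j - s) * gm1 c' s *
        gm1 c11 (i - 1 + j - s)) + ((j - s : ℕ) : ℚ) * c11 * ((j.choose s : ℚ) *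
        (c12 / c11) ^ (j - s) * gm1 c' s * gm1 c11 (i + (j - s) - 1)) := by
    intro s hs
    have hs' : s ≤ j := Nat.lt_succ_iff.1 (mem_range.1 hs)
    have e1 : i + 1 + j - s = (i + (j - s)) + 1 := by omega
    rw [e1, gm1_succ]
    rcases i with _ | i'
    · push_cast
      ring
    · have e2 : i' + 1 - 1 + j - s = i' + 1 + (j - s) - 1 := by omega
      rw [e2]
      push_cast
      ring
  rw [sum_congr rfl h1, sum_add_distrib, ← mul_sum]
  congr 1
  rcases j with _ | m
  · simp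
  · rw [sum_range_succ, Nat.sub_self, Nat.cast_zero, zero_mul, zero_mul, add_zero,
      Nat.add_sub_cancel, mul_sum]
    refine sum_congr rfl fun s hs => ?_
    have hs' : s ≤ m := Nat.lt_succ_iff.1 (mem_range.1 hs)
    obtain ⟨n, rfl⟩ : ∃ n, m = s + n := ⟨m - s, by omega⟩
    have e1 : s + n + 1 - s = n + 1 := by omega
    have e2 : s + n - s = n := by omega
    have e3 : i + (n + 1) - 1 = i + (s + n) - s := by omega
    rw [e1, e2, e3]
    have h2 := Nat.choose_mul_succ_eq (s + n) s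
    rw [e1] at h2
    have h3 : (((s + n).choose s : ℕ) : ℚ) * ((s + n + 1 : ℕ) : ℚ) =
        (((s + n + 1).choose s : ℕ) : ℚ) * ((n + 1 : ℕ) : ℚ) := by exact_mod_cast h2
    have h4 : (c12 / c11) ^ (n + 1) * c11 = (c12 / c11) ^ n * c12 := by
      rw [pow_succ, mul_assoc, div_mul_cancel₀ _ h0]
    calc ((n + 1 : ℕ) : ℚ) * c11 * (((s + n + 1).choose s : ℚ) * (c12 / c11) ^ (n + 1) *
        gm1 c' s * gm1 c11 (i + (s + n) - s)) =
        ((((s + n + 1).choose s : ℕ) : ℚ) * ((n + 1 : ℕ) : ℚ)) * ((c12 / c11) ^ (n + 1) * c11) *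
          gm1 c' s * gm1 c11 (i + (s + n) - s) := by ring
      _ = ((((s + n).choose s : ℕ) : ℚ) * ((s + n + 1 : ℕ) : ℚ)) * ((c12 / c11) ^ n * c12) *
          gm1 c' s * gm1 c11 (i + (s + n) - s) := by rw [h3, h4]
      _ = _ := by ring

/-- convolution -/
lemma conv (a b : ℚ) (j : ℕ) : ∑ p ∈ antidiagonal j, (j.choose p.1 : ℚ) * (gm1 a p.1 * gm1 b p.2) =
    gm1 (a + b) j := by
  induction j using Nat.strong_induction_on with
  | _ j ih =>
    rcases j with _ | j
    · simp [gm1]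
    · rw [Finset.sum_antidiagonal_choose_succ_mul (fun s t => gm1 a s * gm1 b t), gm1_succ]
      rcases j with _ | m
      · simp [gm1]
      · rw [Finset.Nat.sum_antidiagonal_succ', Finset.Nat.sum_antidiagonal_succ,
          Nat.add_sub_cancel, ← ih m (by omega)]
        simp only [gm1_succ, Nat.cast_zero, zero_mul, mul_zero, add_zero, zero_add,
          Nat.add_sub_cancel]
        rw [mul_sum, ← sum_add_distrib]
        refine sum_congr rfl fun p hp => ?_
        have hp' : p.1 + p.2 = m := mem_antidiagonal.1 hp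
        have h1 := Nat.choose_mul_succ_eq m p.1
        have e1 : m + 1 - p.1 = p.2 + 1 := by omega
        rw [e1] at h1
        have h2 := Nat.choose_mul_succ_eq m p.2
        have e2 : m + 1 - p.2 = p.1 + 1 := by omega
        rw [e2] at h2
        have e3 : m.choose p.2 = m.choose p.1 := by
          rw [← hp', Nat.choose_symm_add]
        rw [e3] at h2
        have h1' : ((m.choose p.1 : ℕ) : ℚ) * ((m + 1 : ℕ) : ℚ) =
          (((m + 1).choose p.1 : ℕ) : ℚ) * ((p.2 + 1 : ℕ) : ℚ) := by exact_mod_cast h1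
        have h2' : ((m.choose p.1 : ℕ) : ℚ) * ((m + 1 : ℕ) : ℚ) =
          (((m + 1).choose p.2 : ℕ) : ℚ) * ((p.1 + 1 : ℕ) : ℚ) := by exact_mod_cast h2
        linear_combination (-(b * gm1 a p.1 * gm1 b p.2)) * h1' +
          (-(a * gm1 a p.1 * gm1 b p.2)) * h2'

lemma gm1_scale (r c : ℚ) (n : ℕ) : r ^ n * gm1 c n = gm1 (r ^ 2 * c) n := by
  unfold gm1
  by_cases h : Even n
  · rw [if_pos h, if_pos h, mul_pow, ← pow_mul]
    have : 2 * (n / 2) = n := Nat.two_mul_div_two_of_even h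
    rw [this]
    ring
  · rw [if_neg h, if_neg h, mul_zero]

lemma R_zero (c11 c12 c22 : ℚ) (h0 : c11 ≠ 0) (j : ℕ) :
    R c11 c12 (c22 - c12 ^ 2 / c11) 0 j = gm1 c22 j := by
  have h1 := conv (c22 - c12 ^ 2 / c11) ((c12 / c11) ^ 2 * c11) j
  have h2 : c22 - c12 ^ 2 / c11 + (c12 / c11) ^ 2 * c11 = c22 := by
    field_simp
    ring
  rw [h2] at h1
  rw [← h1, Finset.Nat.sum_antidiagonal_eq_sum_range_succ
    (fun s t => (j.choose s : ℚ) * (gm1 (c22 - c12 ^ 2 / c11) s * gm1 ((c12 / c11) ^ 2 * c11) t))]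
  unfold R
  refine sum_congr rfl fun s _ => ?_
  rw [← gm1_scale, zero_add]
  ring

theorem t_MOM : S_MOM := by
  intro c11 c12 c22 i j h0
  have key : ∀ i j, moment c11 c12 c22 i j = R c11 c12 (c22 - c12 ^ 2 / c11) i j := by
    intro i
    induction i using Nat.strong_induction_on with
    | _ i ih =>
      intro j
      rcases i with _ | i
      · rw [R_zero _ _ _ h0]
        simp [moment, gm1_zero]
      · rw [moment_rec, R_rec _ _ _ h0, ih (i - 1) (by omega), ih i (by omega)]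
  exact key i j

end Pool.Agent.K3h62.SB
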